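import Mathlib
import Pool.Agent.Q43.Ko.Fin

set_option autoImplicit false

/-!
# The union of all minimum vertex covers in the random Koenig graph process

The vocabulary is declared in `Pool/Agent/Q43/Ko/Graph.lean`, `Det.lean` and `Main.lean`:

* `IsCover G C`, `tau G`, `IsOpt G C`: vertex cover, vertex cover number, optimal vertex cover;
* `IsMatch G M`, `nu G`: matching (a finite set of pairwise disjoint edges), matching number;
* `D G`: the union of all optimal vertex covers of `G`;
* `Ordering n`: the bijections from `Fin (n.choose 2)` to the set of the edges of the complete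
  graph on `Fin n` (the orderings `e_1, ..., e_N`, with `e_{i+1} = σ i`);
* `proc σ m`: the graph `G_m` of the random Koenig graph process along the ordering `σ`;
* `Pr n P`: the proportion of the orderings with the property `P`, that is the probability of `P`
  for a uniformly random ordering.
-/

namespace Pool.Agent.Results.MP_de3ac5_pr.UnionOfCovers

open Filter Topology Q43.Ko

/-- For every constant `c > 0` there is `ε(n) → 0` such that with probability tending to `1` the
union `D_m` of all optimal vertex covers satisfies `| |D_m| - n/2 | ≤ ε(n) n/2` for all `m` with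
`c n log n ≤ m ≤ N` simultaneously. -/
theorem result (c : ℝ) (hc : 0 < c) :
    ∃ ε : ℕ → ℝ, Tendsto ε atTop (𝓝 0) ∧
      Tendsto (fun n : ℕ => Pr n (fun σ : Ordering n =>
        ∀ m : ℕ, c * n * Real.log n ≤ m → m ≤ n.choose 2 →
          |((D (proc σ m)).card : ℝ) - n / 2| ≤ ε n * (n / 2))) atTop (𝓝 1) :=
  main hc

end Pool.Agent.Results.MP_de3ac5_pr.UnionOfCovers
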